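import Mathlib

set_option autoImplicit false

namespace Pool.Agent.Results.MP_727445_co.UpperBound

open Finset

/-- The set of values of the nonempty subset sums of `B`. -/
def Sums (B : Finset ℕ) : Set ℕ := {s | ∃ T ⊆ B, T.Nonempty ∧ ∑ x ∈ T, x = s}

/-- `g3 k`: the least possible largest element of a set of `k` positive integers whose nonempty
subset sums contain no three-term arithmetic progression. -/
noncomputable def g3 (k : ℕ) : ℕ :=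
  sInf {m | ∃ B : Finset ℕ, B.card = k ∧ 0 ∉ B ∧ m ∈ B ∧ (∀ x ∈ B, x ≤ m) ∧ ThreeAPFree (Sums B)}

/-- all subset sums -/
def Sums0 (B : Finset ℕ) : Set ℕ := {s | ∃ T ⊆ B, ∑ x ∈ T, x = s}

lemma step (B : Finset ℕ) (s : ℕ) (hs : s ∈ Sums0 (insert 1 (B.image (3 * ·)))) :
    ∃ e, e ≤ 1 ∧ ∃ t ∈ Sums0 B, s = e + 3 * t := by
  obtain ⟨T, hT, rfl⟩ := hs
  have h1 : T.erase 1 ⊆ B.image (3 * ·) := subset_insert_iff.1 hT
  obtain ⟨U, hU, h2⟩ := subset_image_iff.1 h1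
  have h3 : ∑ x ∈ T.erase 1, x = 3 * ∑ x ∈ U, x := by
    rw [← h2, sum_image (fun a _ b _ h => by simpa using h), mul_sum]
  by_cases h : 1 ∈ T
  · exact ⟨1, le_rfl, _, ⟨U, hU, rfl⟩, by rw [← add_sum_erase T _ h, h3]⟩
  · exact ⟨0, by norm_num, _, ⟨U, hU, rfl⟩, by rw [← h3, erase_eq_of_notMem h, zero_add]⟩

lemma base : ThreeAPFree (Sums0 {5, 7, 8}) := by
  have h : Sums0 {5, 7, 8} ⊆ (({0, 5, 7, 8, 12, 13, 15, 20} : Finset ℕ) : Set ℕ) := by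
    rintro s ⟨T, hT, rfl⟩
    have h1 : ∀ T ∈ ({5, 7, 8} : Finset ℕ).powerset,
        ∑ x ∈ T, x ∈ ({0, 5, 7, 8, 12, 13, 15, 20} : Finset ℕ) := by decide
    exact h1 T (mem_powerset.2 hT)
  refine ThreeAPFree.mono h ?_
  decide

lemma build (j : ℕ) : ∃ B : Finset ℕ, B.card = j + 3 ∧ 0 ∉ B ∧ 8 * 3 ^ j ∈ B ∧
    (∀ x ∈ B, x ≤ 8 * 3 ^ j) ∧ ThreeAPFree (Sums0 B) := by
  induction j with
  | zero => exact ⟨{5, 7, 8}, by decide, by decide, by decide, by decide, base⟩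
  | succ j ih =>
    obtain ⟨B, h1, h2, h3, h4, h5⟩ := ih
    refine ⟨insert 1 (B.image (3 * ·)), ?_, ?_, ?_, ?_, ?_⟩
    · rw [card_insert_of_notMem (by simp),
        card_image_of_injective _ (fun a b h => by simpa using h), h1]
    · simpa using h2
    · exact mem_insert_of_mem (mem_image.2 ⟨_, h3, by ring⟩)
    · intro x hx
      rcases mem_insert.1 hx with rfl | hx
      · have : 0 < 3 ^ (j + 1) := by positivity
        omega
      · obtain ⟨y, hy, rfl⟩ := mem_image.1 hx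
        have := h4 y hy
        rw [pow_succ]; omega
    · intro a ha b hb c hc habc
      obtain ⟨e1, l1, t1, m1, rfl⟩ := step B a ha
      obtain ⟨e2, l2, t2, m2, rfl⟩ := step B b hb
      obtain ⟨e3, l3, t3, m3, rfl⟩ := step B c hc
      have := h5 m1 m2 m3 (by omega)
      interval_cases e1 <;> interval_cases e2 <;> interval_cases e3 <;> omega

/-- For every `k ≥ 3`, `g3 k ≤ 8 * 3 ^ (k - 3)`, which is smaller than `3 ^ (k - 1)`. -/
theorem result (k : ℕ) (hk : 3 ≤ k) : g3 k ≤ 8 * 3 ^ (k - 3) ∧ g3 k < 3 ^ (k - 1) ∧ 0 < g3 k := by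
  obtain ⟨j, rfl⟩ := Nat.exists_eq_add_of_le' hk
  obtain ⟨B, h1, h2, h3, h4, h5⟩ := build j
  have hm : 8 * 3 ^ j ∈ {m | ∃ B : Finset ℕ, B.card = j + 3 ∧ 0 ∉ B ∧ m ∈ B ∧ (∀ x ∈ B, x ≤ m) ∧
      ThreeAPFree (Sums B)} :=
    ⟨B, h1, h2, h3, h4, h5.mono (by rintro s ⟨T, a, -, b⟩; exact ⟨T, a, b⟩)⟩
  have h : g3 (j + 3) ≤ 8 * 3 ^ j := Nat.sInf_le hm
  refine ⟨h, h.trans_lt ?_, ?_⟩
  · have : 0 < 3 ^ j := by positivity
    rw [show j + 3 - 1 = j + 2 by omega, pow_add]; omega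
  · obtain ⟨C, -, c2, c3, -⟩ := Nat.sInf_mem ⟨_, hm⟩
    exact Nat.pos_of_ne_zero fun h0 => c2 (h0 ▸ c3)

end Pool.Agent.Results.MP_727445_co.UpperBound
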